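import Mathlib
import Pool.Agent.K1H79.GE.StmA

/-! # The coefficient inequality for ideals (piece W1, `S_CONV`) -/

set_option autoImplicit false

namespace Pool.Agent.K1H9.GE

open NumberField Pool.Agent.K1H79.GE

open scoped Classical in
/-- sums over pairs, and the convolution on ideals -/
noncomputable def II (F : Type) [Field F] [NumberField F] (m : ℕ) : Finset (Ideal (𝓞 F)) :=
  (Ideal.finite_setOfPred_absNorm_eq (S := 𝓞 F) m).toFinset

theorem mem_II {F : Type} [Field F] [NumberField F] {m : ℕ} {A : Ideal (𝓞 F)} :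
    A ∈ II F m ↔ Ideal.absNorm A = m := by
  simp [II]

open scoped Classical in
/-- pairs with product of norms `m` -/
noncomputable def PP (F : Type) [Field F] [NumberField F] (m : ℕ) :
    Finset (Ideal (𝓞 F) × Ideal (𝓞 F)) :=
  m.divisors.biUnion fun d => II F d ×ˢ II F (m / d)

theorem mem_PP {F : Type} [Field F] [NumberField F] {m : ℕ} (hm : 1 ≤ m)
    {p : Ideal (𝓞 F) × Ideal (𝓞 F)} :
    p ∈ PP F m ↔ Ideal.absNorm p.1 * Ideal.absNorm p.2 = m := by
  classical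
  simp only [PP, Finset.mem_biUnion, Nat.mem_divisors, Finset.mem_product, mem_II]
  constructor
  · rintro ⟨d, ⟨hd, _⟩, h1, h2⟩
    rw [h1, h2]
    exact Nat.mul_div_cancel' hd
  · intro h
    refine ⟨Ideal.absNorm p.1, ⟨⟨_, h.symm⟩, by omega⟩, rfl, ?_⟩
    rw [← h]
    have h0 : 0 < Ideal.absNorm p.1 := by
      rcases Nat.eq_zero_or_pos (Ideal.absNorm p.1) with h0 | h0
      · rw [h0] at h; omega
      · exact h0
    rw [Nat.mul_div_cancel_left _ h0]

theorem sum_PP {F : Type} [Field F] [NumberField F] {m : ℕ}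
    (f : Ideal (𝓞 F) × Ideal (𝓞 F) → ℝ) :
    ∑ p ∈ PP F m, f p = ∑ d ∈ m.divisors, ∑ B ∈ II F d, ∑ C ∈ II F (m / d), f (B, C) := by
  classical
  rw [PP, Finset.sum_biUnion]
  · refine Finset.sum_congr rfl fun d _ => ?_
    rw [Finset.sum_product]
  · intro d _ d' _ hdd
    rw [Function.onFun, Finset.disjoint_left]
    intro p hp hp'
    rw [Finset.mem_product, mem_II, mem_II] at hp hp'
    exact hdd (hp.1.symm.trans hp'.1)

open scoped Classical in
/-- pairs with product `A` -/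
noncomputable def DD (F : Type) [Field F] [NumberField F] (A : Ideal (𝓞 F)) :
    Finset (Ideal (𝓞 F) × Ideal (𝓞 F)) :=
  (PP F (Ideal.absNorm A)).filter fun p => p.1 * p.2 = A

theorem mem_DD {F : Type} [Field F] [NumberField F] {A : Ideal (𝓞 F)} (hA : A ≠ ⊥)
    {p : Ideal (𝓞 F) × Ideal (𝓞 F)} : p ∈ DD F A ↔ p.1 * p.2 = A := by
  classical
  have h1 : 1 ≤ Ideal.absNorm A := by
    have := Ideal.absNorm_ne_zero_iff_mem_nonZeroDivisors.mpr (mem_nonZeroDivisors_of_ne_zero hA)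
    omega
  rw [DD, Finset.mem_filter, mem_PP h1]
  constructor
  · exact fun h => h.2
  · intro h
    refine ⟨?_, h⟩
    rw [← h, map_mul]

/-- convolution -/
noncomputable def cv {F : Type} [Field F] [NumberField F] (f g : Ideal (𝓞 F) → ℝ)
    (A : Ideal (𝓞 F)) : ℝ := ∑ p ∈ DD F A, f p.1 * g p.2

theorem sum_cv {F : Type} [Field F] [NumberField F] {m : ℕ} (hm : 1 ≤ m)
    (f g : Ideal (𝓞 F) → ℝ) :
    ∑ d ∈ m.divisors, (∑ B ∈ II F d, f B) * (∑ C ∈ II F (m / d), g C) =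
      ∑ A ∈ II F m, cv f g A := by
  classical
  have h1 : ∑ d ∈ m.divisors, (∑ B ∈ II F d, f B) * (∑ C ∈ II F (m / d), g C) =
      ∑ p ∈ PP F m, f p.1 * g p.2 := by
    rw [sum_PP]
    refine Finset.sum_congr rfl fun d _ => ?_
    rw [Finset.sum_mul_sum]
  rw [h1, ← Finset.sum_fiberwise_of_maps_to (s := PP F m) (t := II F m) (g := fun p => p.1 * p.2)]
  · refine Finset.sum_congr rfl fun A hA => ?_
    rw [mem_II] at hA
    rw [cv, DD, hA]
  · intro p hp
    rw [mem_II, map_mul]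
    exact (mem_PP hm).mp hp

/-- the indicator of the `GI`-ideals -/
noncomputable def gam {F : Type} [Field F] [NumberField F] (G : Ideal (𝓞 F)) : ℝ :=
  open scoped Classical in if GI F G then 1 else 0

theorem gam_nonneg {F : Type} [Field F] [NumberField F] (G : Ideal (𝓞 F)) : 0 ≤ gam G := by
  classical
  unfold gam
  split_ifs <;> norm_num

theorem rr_eq {F : Type} [Field F] [NumberField F] (m : ℕ) :
    rr F m = ∑ _A ∈ II F m, (1 : ℝ) := by
  classical
  rw [rr, Finset.sum_const, nsmul_eq_mul, mul_one]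
  congr 1
  have : {𝔞 : Ideal (𝓞 F) // Ideal.absNorm 𝔞 = m} = {𝔞 : Ideal (𝓞 F) // 𝔞 ∈ II F m} := by
    congr 1
    funext 𝔞
    rw [mem_II]
  rw [this, Nat.card_eq_fintype_card, Fintype.card_coe]

theorem aa_eq {F : Type} [Field F] [NumberField F] (ψ : Ideal (𝓞 F) →*₀ ℝ) (m : ℕ) :
    aa F ψ m = ∑ A ∈ II F m, ψ A := by
  classical
  rw [aa]
  have h := finsum_mem_coe_finset (fun A : Ideal (𝓞 F) => ψ A) (II F m)
  rw [← h]
  have h2 : (↑(II F m) : Set (Ideal (𝓞 F))) = {𝔞 : Ideal (𝓞 F) | Ideal.absNorm 𝔞 = m} := by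
    ext A
    simp [mem_II]
  rw [h2]
  exact finsum_set_coe_eq_finsum_mem (f := fun A : Ideal (𝓞 F) => ψ A)
    {𝔞 : Ideal (𝓞 F) | Ideal.absNorm 𝔞 = m}

theorem gg_eq {F : Type} [Field F] [NumberField F] (m : ℕ) :
    gg F m = ∑ A ∈ II F m, gam A := by
  classical
  have h1 : ∑ A ∈ II F m, gam A = (((II F m).filter fun G => GI F G).card : ℝ) := by
    rw [Finset.card_filter, Nat.cast_sum]
    refine Finset.sum_congr rfl fun A _ => ?_
    rw [gam]
    split_ifs <;> simp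
  rw [h1, gg]
  congr 1
  have : {𝔤 : Ideal (𝓞 F) // GI F 𝔤 ∧ Ideal.absNorm 𝔤 = m} =
      {𝔤 : Ideal (𝓞 F) // 𝔤 ∈ (II F m).filter fun G => GI F G} := by
    congr 1
    funext 𝔞
    rw [Finset.mem_filter, mem_II, and_comm]
  rw [this, Nat.card_eq_fintype_card, Fintype.card_coe]

theorem conv_ideal {F : Type} [Field F] [NumberField F] (ψ : Ideal (𝓞 F) →*₀ ℝ) {m : ℕ}
    (hm : 1 ≤ m) : ∑ d ∈ m.divisors, aa F ψ d * ee F (m / d) =
      ∑ A ∈ II F m, cv (cv ψ gam) gam A := by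
  classical
  -- associativity for arithmetic functions
  let a : ArithmeticFunction ℝ := ⟨fun d => if d = 0 then 0 else aa F ψ d, by simp⟩
  let g : ArithmeticFunction ℝ := ⟨fun d => if d = 0 then 0 else gg F d, by simp⟩
  have ha : ∀ d, 1 ≤ d → a d = aa F ψ d := fun d hd => by
    show (if d = 0 then (0:ℝ) else aa F ψ d) = _
    rw [if_neg (by omega)]
  have hg : ∀ d, 1 ≤ d → g d = gg F d := fun d hd => by
    show (if d = 0 then (0:ℝ) else gg F d) = _
    rw [if_neg (by omega)]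
  have hdiv : ∀ n d : ℕ, d ∈ n.divisors → 1 ≤ d ∧ 1 ≤ n / d := fun n d hd => by
    have h1 := Nat.pos_of_mem_divisors hd
    have h2 := Nat.mem_divisors.mp hd
    exact ⟨h1, Nat.div_pos (Nat.le_of_dvd (Nat.pos_of_ne_zero h2.2) h2.1) h1⟩
  have hgg : ∀ n, 1 ≤ n → (g * g) n = ee F n := fun n _ => by
    rw [ArithmeticFunction.mul_apply, Nat.sum_divisorsAntidiagonal (fun i j => g i * g j), ee]
    refine Finset.sum_congr rfl fun d hd => ?_
    rw [hg _ (hdiv n d hd).1, hg _ (hdiv n d hd).2]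
  have h1 : ∑ d ∈ m.divisors, aa F ψ d * ee F (m / d) = (a * (g * g)) m := by
    rw [ArithmeticFunction.mul_apply,
      Nat.sum_divisorsAntidiagonal (fun i j => a i * (g * g) j)]
    refine Finset.sum_congr rfl fun d hd => ?_
    rw [ha _ (hdiv m d hd).1, hgg _ (hdiv m d hd).2]
  have hag : ∀ n, 1 ≤ n → (a * g) n = ∑ A ∈ II F n, cv ψ gam A := fun n hn => by
    rw [ArithmeticFunction.mul_apply, Nat.sum_divisorsAntidiagonal (fun i j => a i * g j),
      ← sum_cv hn]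
    refine Finset.sum_congr rfl fun d hd => ?_
    rw [ha _ (hdiv n d hd).1, hg _ (hdiv n d hd).2, aa_eq, gg_eq]
  rw [h1, ← mul_assoc, ArithmeticFunction.mul_apply,
    Nat.sum_divisorsAntidiagonal (fun i j => (a * g) i * g j), ← sum_cv hm]
  refine Finset.sum_congr rfl fun d hd => ?_
  rw [hag _ (hdiv m d hd).1, hg _ (hdiv m d hd).2, gg_eq]

theorem absNorm_eq_one {F : Type} [Field F] [NumberField F] {A : Ideal (𝓞 F)}
    (h : IsUnit A) : Ideal.absNorm A = 1 := by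
  have h1 := h.map (Ideal.absNorm (S := 𝓞 F))
  exact Nat.isUnit_iff.mp h1

theorem GI_mul {F : Type} [Field F] [NumberField F] {P G : Ideal (𝓞 F)} (hP : Prime P)
    (hN : Ideal.absNorm P % 3 ≠ 1) : GI F (P * G) ↔ GI F G := by
  constructor
  · rintro ⟨h0, h⟩
    refine ⟨fun h1 => h0 (by rw [h1]; exact Ideal.mul_bot P), fun Q hQ hQG => h Q hQ (dvd_mul_of_dvd_right hQG P)⟩
  · rintro ⟨h0, h⟩
    refine ⟨mul_ne_zero hP.ne_zero h0, fun Q hQ hQG => ?_⟩
    have hQ0 : Q ≠ ⊥ := by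
      rintro rfl
      have := zero_dvd_iff.mp hQG
      exact mul_ne_zero hP.ne_zero h0 this
    have hQp := (Ideal.prime_iff_isPrime hQ0).mpr hQ
    rcases hQp.dvd_or_dvd hQG with h1 | h1
    · have h2 := (hQp.dvd_prime_iff_associated hP).mp h1
      rw [associated_iff_eq] at h2
      rw [h2]
      exact hN
    · exact h Q hQ h1

theorem GI_pow_mul {F : Type} [Field F] [NumberField F] {P G : Ideal (𝓞 F)} (hP : Prime P)
    (hN : Ideal.absNorm P % 3 ≠ 1) (j : ℕ) : GI F (P ^ j * G) ↔ GI F G := by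
  induction j with
  | zero => rw [pow_zero, one_mul]
  | succ j ih => rw [pow_succ', mul_assoc, GI_mul hP hN, ih]

/-- the part of the convolution where `P` divides the first factor -/
theorem cv_left {F : Type} [Field F] [NumberField F] (ψ : Ideal (𝓞 F) →*₀ ℝ)
    {P X : Ideal (𝓞 F)} (hP : Prime P) (hX : X ≠ ⊥) :
    open scoped Classical in
    ∑ p ∈ (DD F (P * X)).filter (fun p => P ∣ p.1), ψ p.1 * gam p.2 = ψ P * cv ψ gam X := by
  classical
  have hPX : P * X ≠ ⊥ := mul_ne_zero hP.ne_zero hX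
  rw [cv, Finset.mul_sum]
  symm
  refine Finset.sum_nbij (fun p => (P * p.1, p.2)) ?_ ?_ ?_ ?_
  · intro p hp
    rw [mem_DD hX] at hp
    rw [Finset.mem_filter, mem_DD hPX]
    exact ⟨by rw [← hp, mul_assoc], dvd_mul_right _ _⟩
  · rintro ⟨p1, p2⟩ _ ⟨q1, q2⟩ _ hpq
    have h1 := (Prod.ext_iff.mp hpq).1
    have h2 := (Prod.ext_iff.mp hpq).2
    simp only at h1 h2
    exact Prod.ext (mul_left_cancel₀ hP.ne_zero h1) h2
  · rintro ⟨q1, q2⟩ hq
    rw [Finset.mem_coe, Finset.mem_filter, mem_DD hPX] at hq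
    obtain ⟨hq1, ⟨b, hb⟩⟩ := hq
    simp only at hq1 hb
    refine ⟨(b, q2), ?_, ?_⟩
    · rw [Finset.mem_coe, mem_DD hX]
      rw [hb, mul_assoc] at hq1
      exact mul_left_cancel₀ hP.ne_zero hq1
    · simp only [hb]
  · intro p _
    simp only [map_mul]
    ring

/-- the part of the convolution where `P` does not divide the first factor -/
theorem cv_right {F : Type} [Field F] [NumberField F] (ψ : Ideal (𝓞 F) →*₀ ℝ)
    {P Y : Ideal (𝓞 F)} (hP : Prime P) (hN : Ideal.absNorm P % 3 ≠ 1) (hY : Y ≠ ⊥)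
    (hPY : ¬ P ∣ Y) (j : ℕ) :
    open scoped Classical in
    ∑ p ∈ (DD F (P ^ j * Y)).filter (fun p => ¬ P ∣ p.1), ψ p.1 * gam p.2 = cv ψ gam Y := by
  classical
  have hPY' : P ^ j * Y ≠ ⊥ := mul_ne_zero (pow_ne_zero j hP.ne_zero) hY
  rw [cv]
  symm
  refine Finset.sum_nbij (fun p => (p.1, P ^ j * p.2)) ?_ ?_ ?_ ?_
  · intro p hp
    rw [mem_DD hY] at hp
    rw [Finset.mem_filter, mem_DD hPY']
    refine ⟨by rw [← hp]; ring, fun h => hPY ?_⟩
    rw [← hp]
    exact dvd_mul_of_dvd_left h _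
  · rintro ⟨p1, p2⟩ _ ⟨q1, q2⟩ _ hpq
    have h1 := (Prod.ext_iff.mp hpq).1
    have h2 := (Prod.ext_iff.mp hpq).2
    simp only at h1 h2
    exact Prod.ext h1 (mul_left_cancel₀ (pow_ne_zero j hP.ne_zero) h2)
  · rintro ⟨q1, q2⟩ hq
    rw [Finset.mem_coe, Finset.mem_filter, mem_DD hPY'] at hq
    obtain ⟨hq1, hq2⟩ := hq
    simp only at hq1 hq2
    have h3 : P ^ j ∣ q2 := by
      have : P ^ j ∣ q1 * q2 := by rw [hq1]; exact dvd_mul_right _ _
      exact hP.pow_dvd_of_dvd_mul_left j hq2 this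
    obtain ⟨b, hb⟩ := h3
    refine ⟨(q1, b), ?_, ?_⟩
    · rw [Finset.mem_coe, mem_DD hY]
      rw [hb, mul_left_comm] at hq1
      exact mul_left_cancel₀ (pow_ne_zero j hP.ne_zero) hq1
    · simp only [hb]
  · intro p _
    simp only [gam, GI_pow_mul hP hN]

/-- the recursion at a prime of norm `≢ 1` -/
theorem cv_step {F : Type} [Field F] [NumberField F] (ψ : Ideal (𝓞 F) →*₀ ℝ)
    {P Y : Ideal (𝓞 F)} (hP : Prime P) (hN : Ideal.absNorm P % 3 ≠ 1) (hY : Y ≠ ⊥)
    (hPY : ¬ P ∣ Y) (j : ℕ) :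
    cv ψ gam (P ^ (j + 1) * Y) = ψ P * cv ψ gam (P ^ j * Y) + cv ψ gam Y := by
  classical
  have h1 : P ^ (j + 1) * Y = P * (P ^ j * Y) := by ring
  have hX : P ^ j * Y ≠ ⊥ := mul_ne_zero (pow_ne_zero j hP.ne_zero) hY
  rw [← cv_left ψ hP hX, ← cv_right ψ hP hN hY hPY (j + 1), ← h1, cv,
    Finset.sum_filter_add_sum_filter_not]

/-- the recursion at a prime of norm `≡ 1` -/
theorem cv_step1 {F : Type} [Field F] [NumberField F] (ψ : Ideal (𝓞 F) →*₀ ℝ)
    {P X : Ideal (𝓞 F)} (hP : Prime P) (hN : Ideal.absNorm P % 3 = 1) (hX : X ≠ ⊥) :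
    cv ψ gam (P * X) = ψ P * cv ψ gam X := by
  classical
  have hPX : P * X ≠ ⊥ := mul_ne_zero hP.ne_zero hX
  rw [← cv_left ψ hP hX, cv]
  symm
  refine Finset.sum_filter_of_ne ?_
  intro p hp hne
  rw [mem_DD hPX] at hp
  by_contra hnd
  have h2 : P ∣ p.2 := by
    have : P ∣ p.1 * p.2 := by rw [hp]; exact dvd_mul_right _ _
    exact (hP.dvd_or_dvd this).resolve_left hnd
  have h3 : ¬ GI F p.2 := fun h => h.2 P ((Ideal.prime_iff_isPrime hP.ne_zero).mp hP) h2 hN
  exact hne (by rw [gam, if_neg h3, mul_zero])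

theorem cv_unit {F : Type} [Field F] [NumberField F] (ψ : Ideal (𝓞 F) →*₀ ℝ) :
    cv ψ gam (1 : Ideal (𝓞 F)) = 1 := by
  classical
  have h1 : DD F 1 = {((1 : Ideal (𝓞 F)), (1 : Ideal (𝓞 F)))} := by
    ext ⟨p1, p2⟩
    rw [mem_DD one_ne_zero, Finset.mem_singleton]
    constructor
    · intro h
      have e1 : p1 = 1 := by
        have := IsUnit.of_mul_eq_one _ h
        rw [Ideal.isUnit_iff] at this
        have h' : p1 = ⊤ := this
        rw [h', Ideal.one_eq_top]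
      rw [e1, one_mul] at h
      simp only at h
      rw [e1, h]
    · intro h
      rw [Prod.ext_iff] at h
      simp only at h
      rw [h.1, h.2, one_mul]
  have h2 : GI F (1 : Ideal (𝓞 F)) := by
    refine ⟨one_ne_zero, fun P hP h => ?_⟩
    have := isUnit_of_dvd_one h
    rw [Ideal.isUnit_iff] at this
    exact absurd this hP.ne_top
  rw [cv, h1, Finset.sum_singleton, map_one, gam, if_pos h2, one_mul]

theorem cv_pow {F : Type} [Field F] [NumberField F] {ψ : Ideal (𝓞 F) →*₀ ℝ} (hψ : IsX3 F ψ)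
    {P Y : Ideal (𝓞 F)} (hP : Prime P) (hY : Y ≠ ⊥)
    (hPY : ¬ P ∣ Y) (j : ℕ) : ∃ c : ℝ, 0 ≤ c ∧ cv ψ gam (P ^ j * Y) = c * cv ψ gam Y := by
  by_cases hN : Ideal.absNorm P % 3 = 1
  · refine ⟨1, zero_le_one, ?_⟩
    induction j with
    | zero => rw [pow_zero, one_mul, one_mul]
    | succ j ih =>
      rw [pow_succ', mul_assoc, cv_step1 ψ hP hN (mul_ne_zero (pow_ne_zero j hP.ne_zero) hY), ih,
        hψ.2.1 P hN, one_mul]
  · -- `c_j = 1 + ψ P c_(j-1)`; the invariant is `0 ≤ c` and `ψ P = -1 → c ≤ 1`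
    have : ∃ c : ℝ, 0 ≤ c ∧ (ψ P = -1 → c ≤ 1) ∧ cv ψ gam (P ^ j * Y) = c * cv ψ gam Y := by
      induction j with
      | zero => exact ⟨1, zero_le_one, fun _ => le_refl _, by rw [pow_zero, one_mul, one_mul]⟩
      | succ j ih =>
        obtain ⟨c, hc, hc1, h⟩ := ih
        refine ⟨1 + ψ P * c, ?_, ?_, ?_⟩
        · rcases hψ.1 P with h0 | h0 | h0
          · rw [h0]; linarith
          · rw [h0]; linarith
          · have := hc1 h0
            rw [h0]; linarith
        · intro h0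
          rw [h0]; linarith
        · rw [cv_step ψ hP hN hY hPY, h]
          ring
    obtain ⟨c, hc, _, h⟩ := this
    exact ⟨c, hc, h⟩

theorem cv_nonneg {F : Type} [Field F] [NumberField F] {ψ : Ideal (𝓞 F) →*₀ ℝ} (hψ : IsX3 F ψ) :
    ∀ n : ℕ, ∀ A : Ideal (𝓞 F), A ≠ ⊥ → Ideal.absNorm A = n → 0 ≤ cv ψ gam A := by
  intro n
  induction n using Nat.strong_induction_on with
  | _ n ih =>
    intro A hA hn
    by_cases hu : IsUnit A
    · have h1 : A = 1 := by
        rw [Ideal.isUnit_iff] at hu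
        rw [hu, Ideal.one_eq_top]
      rw [h1, cv_unit]
      exact zero_le_one
    · obtain ⟨P, hPi, hPA⟩ := WfDvdMonoid.exists_irreducible_factor hu hA
      have hP : Prime P := hPi.prime
      have hfm : FiniteMultiplicity P A :=
        FiniteMultiplicity.of_prime_left hP hA
      obtain ⟨Y, hY1, hY2⟩ := hfm.exists_eq_pow_mul_and_not_dvd
      have hY0 : Y ≠ ⊥ := by
        intro h
        apply hY2
        rw [h]
        exact dvd_zero P
      have hk : multiplicity P A ≠ 0 := by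
        intro h0
        rw [h0, pow_zero, one_mul] at hY1
        rw [hY1] at hPA
        exact hY2 hPA
      have hNP : 2 ≤ Ideal.absNorm P := by
        have h1 : Ideal.absNorm P ≠ 0 :=
          Ideal.absNorm_ne_zero_iff_mem_nonZeroDivisors.mpr
            (mem_nonZeroDivisors_of_ne_zero hP.ne_zero)
        have h2 : Ideal.absNorm P ≠ 1 := by
          rw [Ne, Ideal.absNorm_eq_one_iff]
          intro h
          exact hP.not_isUnit (by rw [h]; exact Ideal.isUnit_iff.mpr rfl)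
        omega
      have hNY : 0 < Ideal.absNorm Y :=
        Nat.pos_of_ne_zero (Ideal.absNorm_ne_zero_iff_mem_nonZeroDivisors.mpr
            (mem_nonZeroDivisors_of_ne_zero hY0))
      have hlt : Ideal.absNorm Y < n := by
        rw [← hn, hY1, map_mul, map_pow]
        obtain ⟨k, hk'⟩ := Nat.exists_eq_succ_of_ne_zero hk
        have h2 : 2 ≤ Ideal.absNorm P ^ multiplicity P A := by
          rw [hk']
          calc 2 ≤ Ideal.absNorm P := hNP
            _ ≤ Ideal.absNorm P ^ (k + 1) := Nat.le_self_pow (by omega) _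
        nlinarith
      obtain ⟨c, hc, h⟩ := cv_pow hψ hP hY0 hY2 (multiplicity P A)
      rw [hY1, h]
      exact mul_nonneg hc (ih _ hlt Y hY0 rfl)

/-- the decomposition into the `GI` part and the rest -/
theorem decomp {F : Type} [Field F] [NumberField F] {ψ : Ideal (𝓞 F) →*₀ ℝ} (hψ : IsX3 F ψ)
    (A : Ideal (𝓞 F)) : A ≠ ⊥ → ∃ H G : Ideal (𝓞 F), H ≠ ⊥ ∧ H * G = A ∧ GI F G ∧
      cv ψ gam H = 1 := by
  classical
  refine UniqueFactorizationMonoid.induction_on_prime A (fun h => absurd rfl h) ?_ ?_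
  · intro A hu _
    have h1 : A = 1 := by
      rw [Ideal.isUnit_iff] at hu
      rw [hu, Ideal.one_eq_top]
    refine ⟨1, 1, one_ne_zero, by rw [h1, one_mul], ⟨one_ne_zero, fun P hP h => ?_⟩, cv_unit ψ⟩
    have := isUnit_of_dvd_one h
    rw [Ideal.isUnit_iff] at this
    exact absurd this hP.ne_top
  · intro A P hA hP ih _
    obtain ⟨H, G, hH, hHG, hG, h⟩ := ih hA
    by_cases hN : Ideal.absNorm P % 3 = 1
    · refine ⟨P * H, G, mul_ne_zero hP.ne_zero hH, by rw [mul_assoc, hHG], hG, ?_⟩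
      rw [cv_step1 ψ hP hN hH, hψ.2.1 P hN, one_mul, h]
    · exact ⟨H, P * G, hH, by rw [mul_left_comm, hHG], (GI_mul hP hN).mpr hG, h⟩

theorem cv_ge_one {F : Type} [Field F] [NumberField F] {ψ : Ideal (𝓞 F) →*₀ ℝ} (hψ : IsX3 F ψ)
    {A : Ideal (𝓞 F)} (hA : A ≠ ⊥) : 1 ≤ cv (cv ψ gam) gam A := by
  classical
  obtain ⟨H, G, hH, hHG, hG, h⟩ := decomp hψ A hA
  rw [cv]
  have h1 : cv ψ gam H * gam G ≤ ∑ p ∈ DD F A, cv ψ gam p.1 * gam p.2 := by
    refine Finset.single_le_sum (f := fun p : Ideal (𝓞 F) × Ideal (𝓞 F) => cv ψ gam p.1 * gam p.2)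
      (s := DD F A) (a := (H, G)) ?_ ((mem_DD hA).mpr hHG)
    intro p hp
    rw [mem_DD hA] at hp
    refine mul_nonneg (cv_nonneg hψ _ p.1 (fun h0 => hA ?_) rfl) (gam_nonneg _)
    rw [← hp, h0]
    exact Ideal.bot_mul _
  rw [h, gam, if_pos hG, one_mul] at h1
  exact h1

theorem t_CONV : S_CONV := by
  intro F _ _ ψ hψ m hm
  rw [conv_ideal ψ hm, rr_eq]
  refine Finset.sum_le_sum fun A hA => cv_ge_one hψ ?_
  rw [mem_II] at hA
  intro h
  rw [h, Ideal.absNorm_bot] at hA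
  omega

end Pool.Agent.K1H9.GE
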